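import Pool.Agent.Lib.MP_d308c3_co.Cell.Defs

/-! The two telescoping chains over the cells. -/

namespace Pool.Agent.Lib.MP_d308c3_co.Cell

open Finset Pool.Agent.Lib.MP_108739_an.F
open scoped Classical

variable {Ω ν τ α ξ β : Type} [Fintype Ω] {w : Ω → ℝ}

theorem st_leak (hw : Nn w) {V ρ : Ω → ℝ} {σ r0 : ℝ} {g : Ω → β} (hr : r0 ≤ 1) (hρ : ∀ o, 0 < ρ o)
    (h : ∀ o o', 0 < w o → 0 < w o' → g o = g o' → ρ o = ρ o' ∧ |V o - V o'| ≤ r0 * ρ o) :
    H w (fun o => ⌊V o / ρ o + σ⌋) g ≤ tot (res w fun o => Tel.St r0 (V o / ρ o + σ)) :=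
  Tel.straddle hw (fun o => V o / ρ o + σ) g hr fun o o' p q e => by
    obtain ⟨h1, h2⟩ := h o o' p q e
    rw [← h1]
    exact div_near (hρ o) h2

theorem tot_res_res_mono (hw : Nn w) {L L' : Ω → Prop} (h : ∀ o, L' o → L o) (S : Ω → Prop) :
    tot (res (res w L') S) ≤ tot (res (res w L) S) := by
  rw [res_res, res_res]
  exact tot_res_mono hw fun o _ e => ⟨h o e.1, e.2⟩

variable {R : RowD Ω τ α} {C : ColD Ω ξ} {n0 : Ω → ν} {a b : Ω → ℝ} {P σ r0 c1 c2 KB : ℝ} {s : ℕ}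

omit [Fintype Ω] in
theorem unit_pos (hR : R.Ok n0 s c1 c2) (hC : C.Ok w n0 a s c1 c2 KB) (r k : ℕ) (o : Ω) :
    0 < unit R C r k o := mul_pos (hR.pos r o) (hC.pos k o)

omit [Fintype Ω] in
theorem O_eq {r k : ℕ} {o o' : Ω} : O R C n0 a b P σ r k o = O R C n0 a b P σ r k o' ↔
    n0 o = n0 o' ∧ R.tau r o = R.tau r o' ∧ C.xi k o = C.xi k o' ∧
      Yc R C a b P σ r k o = Yc R C a b P σ r k o' := by
  simp only [O, pr, Prod.mk.injEq, and_assoc]

omit [Fintype Ω] in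
theorem unit_eq (hR : R.Ok n0 s c1 c2) (hC : C.Ok w n0 a s c1 c2 KB) {r k : ℕ} {o o' : Ω}
    (h1 : R.tau r o = R.tau r o') (h2 : C.xi k o = C.xi k o') :
    unit R C r k o = unit R C r k o' := by
  rw [unit, unit, hR.dlam r o o' h1, hC.dU k o o' h2]

omit [Fintype Ω] in
/-- the conditioning confines the height -/
theorem O_conf (hR : R.Ok n0 s c1 c2) (hC : C.Ok w n0 a s c1 c2 KB) (hP : 1 ≤ P) {r k : ℕ} {o o' : Ω}
    (h : O R C n0 a b P σ r k o = O R C n0 a b P σ r k o') :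
    |Vp R C a b r k o - Vp R C a b r k o'| ≤ unit R C r k o * P := by
  obtain ⟨-, h2, h3, h4⟩ := O_eq.1 h
  unfold Yc at h4
  rw [← unit_eq hR hC h2 h3] at h4
  exact floor_conf (mul_pos (unit_pos hR hC r k o) (by linarith)) h4

theorem wt_nn (hw : Nn w) (r k : ℕ) : Nn (wt R C r k w) := hw.res _

theorem wt_pos {r k : ℕ} {o : Ω} (h : 0 < wt R C r k w o) : R.live r o ∧ C.live k o := (res_pos h).1

theorem leak_col (hw : Nn w) (hR : R.Ok n0 s c1 c2) (hC : C.Ok w n0 a s c1 c2 KB) (hP : 1 ≤ P)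
    (hr : r0 ≤ 1) (h1 : c1 * P ^ 2 ≤ r0) (r k : ℕ) :
    H (wt R C r (k + s) w) (pr (O R C n0 a b P σ r k) (pr (C.B k) (Yp R C a b P σ r k)))
      (O R C n0 a b P σ r (k + s)) ≤ stc R C a b P σ r k w r0 + stp R C a b P σ r k w r0 := by
  have hu := wt_nn (R := R) (C := C) hw r (k + s)
  have hP0 : 0 < P := by linarith
  have key : ∀ o o', 0 < wt R C r (k + s) w o → 0 < wt R C r (k + s) w o' →
      O R C n0 a b P σ r (k + s) o = O R C n0 a b P σ r (k + s) o' →
      unit R C r k o = unit R C r k o' ∧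
        |Vp R C a b r k o - Vp R C a b r k o'| ≤ r0 * (unit R C r k o / P) := by
    intro o o' p q e
    obtain ⟨e1, e2, e3, -⟩ := O_eq.1 e
    have e4 := (hC.nest k o o' (wt_pos p).2 (wt_pos q).2 e1 e3).1
    refine ⟨unit_eq hR hC e2 e4, ?_⟩
    have h2 := O_conf hR hC hP e
    have h3 : Vp R C a b r k o - Vp R C a b r k o' =
        Vp R C a b r (k + s) o - Vp R C a b r (k + s) o' := by
      unfold Vp
      rw [← hR.dt0 r o o' e2, ← hC.dx0 k o o' e4, ← hC.dx0 (k + s) o o' e3]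
      ring
    rw [h3]
    refine h2.trans ?_
    have h4 := hC.small k o (wt_pos p).2
    have h5 := hR.pos r o
    have h6 := hC.pos k o
    unfold unit
    rw [← mul_div_assoc, le_div_iff₀ hP0]
    calc R.lam r o * C.U (k + s) o * P * P ≤ R.lam r o * (c1 * C.U k o) * P * P := by gcongr
      _ = c1 * P ^ 2 * (R.lam r o * C.U k o) := by ring
      _ ≤ _ := by gcongr
  have a1 : H (wt R C r (k + s) w) (pr (O R C n0 a b P σ r k) (pr (C.B k) (Yp R C a b P σ r k)))
      (O R C n0 a b P σ r (k + s)) ≤ H (wt R C r (k + s) w)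
        (pr (Yc R C a b P σ r k) (Yp R C a b P σ r k)) (O R C n0 a b P σ r (k + s)) := by
    refine H_monoS hu ?_ (DetS.of Det.rfl)
    intro o o' p q e
    obtain ⟨e0, e'⟩ := Prod.mk.inj e
    obtain ⟨y1, y2⟩ := Prod.mk.inj e0
    obtain ⟨e1, e2, e3, -⟩ := O_eq.1 e'
    obtain ⟨e4, e5⟩ := hC.nest k o o' (wt_pos p).2 (wt_pos q).2 e1 e3
    exact Prod.ext (O_eq.2 ⟨e1, e2, e4, y1⟩) (Prod.ext e5 y2)
  have a2 : H (wt R C r (k + s) w) (Yc R C a b P σ r k) (O R C n0 a b P σ r (k + s)) ≤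
      stc R C a b P σ r k w r0 := by
    refine (st_leak hu (V := Vp R C a b r k) (ρ := fun o => unit R C r k o * P) hr
      (fun o => mul_pos (unit_pos hR hC r k o) hP0) fun o o' p q e => ?_).trans
      (tot_res_res_mono hw (fun o h => ⟨h.1, hC.live k o h.2⟩) _)
    obtain ⟨h2, h3⟩ := key o o' p q e
    refine ⟨by simp only [h2], h3.trans ?_⟩
    have h4 := unit_pos hR hC r k o
    have h5 : 0 ≤ r0 := by
      have := (abs_nonneg _).trans h3
      exact nonneg_of_mul_nonneg_left this (div_pos h4 hP0)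
    have h6 : unit R C r k o / P ≤ unit R C r k o * P :=
      (div_le_self h4.le hP).trans (le_mul_of_one_le_right h4.le hP)
    exact mul_le_mul_of_nonneg_left h6 h5
  have a3 : H (wt R C r (k + s) w) (Yp R C a b P σ r k) (O R C n0 a b P σ r (k + s)) ≤
      stp R C a b P σ r k w r0 := by
    refine (st_leak hu (V := Vp R C a b r k) (ρ := fun o => unit R C r k o / P) hr
      (fun o => div_pos (unit_pos hR hC r k o) hP0) fun o o' p q e => ?_).trans
      (tot_res_res_mono hw (fun o h => ⟨h.1, hC.live k o h.2⟩) _)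
    obtain ⟨h2, h3⟩ := key o o' p q e
    exact ⟨by simp only [h2], h3⟩
  exact a1.trans ((Tel.H_pr_le hu _ _ _).trans (add_le_add a2 a3))

/-- chain along the columns -/
theorem chain_col (hw : Nn w) (hR : R.Ok n0 s c1 c2) (hC : C.Ok w n0 a s c1 c2 KB) (hP : 1 ≤ P)
    (hr : r0 ≤ 1) (h1 : c1 * P ^ 2 ≤ r0) (r K : ℕ) :
    ∑ k ∈ range K, d1 R C n0 a b P σ r k w ≤
      s * H (res w (R.live r)) (R.A r) (pr n0 (R.tau r)) +
        ∑ k ∈ range K, (stc R C a b P σ r k w r0 + stp R C a b P σ r k w r0) := by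
  have h2 := Tel.tel_res hw (R.A r) (fun k => O R C n0 a b P σ r k)
    (fun k => pr (C.B k) (Yp R C a b P σ r k)) (fun k o => R.live r o ∧ C.live k o) s K
    fun k o h => ⟨h.1, hC.live k o h.2⟩
  refine le_trans h2 (add_le_add ?_ (sum_le_sum fun k _ => leak_col hw hR hC hP hr h1 r k))
  have h3 := sum_le_card_nsmul (range s)
    (fun k => H (res w fun o => R.live r o ∧ C.live k o) (R.A r) (O R C n0 a b P σ r k))
    (H (res w (R.live r)) (R.A r) (pr n0 (R.tau r))) fun k _ =>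
      (H_mono (hw.res _) Det.fst Det.fst).trans (Tel.H_res_mono hw (fun o h => h.1) _ _)
  simpa using h3

theorem leak_row (hw : Nn w) (hR : R.Ok n0 s c1 c2) (hC : C.Ok w n0 a s c1 c2 KB) (hP : 1 ≤ P)
    (hr : r0 ≤ 1) (h1 : c1 * P ^ 2 + c2 * P ≤ r0) (h2 : c1 + 1 / P ≤ r0) (r k : ℕ) :
    H (wt R C (r + s) k w) (pr (O R C n0 a b P σ r k) (pr (R.A r) (Yl R C a b P σ r k)))
      (O R C n0 a b P σ (r + s) k) ≤ stc R C a b P σ r k w r0 + stl R C a b P σ r k w r0 := by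
  have hu := wt_nn (R := R) (C := C) hw (r + s) k
  have hP0 : 0 < P := by linarith
  have key : ∀ o o', 0 < wt R C (r + s) k w o → 0 < wt R C (r + s) k w o' →
      O R C n0 a b P σ (r + s) k o = O R C n0 a b P σ (r + s) k o' → ∀ t c : ℝ,
      |t - R.t0 (r + s) o| ≤ c * R.lam r o →
      |b o + t * (a o - C.x0 k o) - (b o' + t * (a o' - C.x0 k o'))| ≤
        (c1 * P + c) * unit R C r k o := by
    intro o o' p q e t c ht
    obtain ⟨e1, e2, e3, -⟩ := O_eq.1 e
    have h3 := O_conf hR hC hP e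
    have h4 : b o + t * (a o - C.x0 k o) - (b o' + t * (a o' - C.x0 k o')) =
        (Vp R C a b (r + s) k o - Vp R C a b (r + s) k o') +
          (t - R.t0 (r + s) o) * ((a o - C.x0 k o) - (a o' - C.x0 k o')) := by
      unfold Vp
      rw [← hR.dt0 (r + s) o o' e2]
      ring
    have m1 := hC.mem k o (wt_pos p).2
    have m2 := hC.mem k o' (wt_pos q).2
    rw [← hC.dU k o o' e3] at m2
    have h5 : |(a o - C.x0 k o) - (a o' - C.x0 k o')| ≤ C.U k o :=
      abs_le.2 ⟨by linarith [m1.1, m2.2], by linarith [m1.2, m2.1]⟩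
    have h6 := hR.small r o (wt_pos p).1
    have h7 := hC.pos k o
    rw [h4]
    refine (abs_add_le _ _).trans ?_
    rw [abs_mul]
    have h8 : |t - R.t0 (r + s) o| * |(a o - C.x0 k o) - (a o' - C.x0 k o')| ≤
        c * R.lam r o * C.U k o := mul_le_mul ht h5 (abs_nonneg _) ((abs_nonneg _).trans ht)
    have h9 : unit R C (r + s) k o * P ≤ c1 * R.lam r o * C.U k o * P := by
      unfold unit
      gcongr
    unfold unit at *
    nlinarith
  have a1 : H (wt R C (r + s) k w) (pr (O R C n0 a b P σ r k) (pr (R.A r) (Yl R C a b P σ r k)))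
      (O R C n0 a b P σ (r + s) k) ≤ H (wt R C (r + s) k w)
        (pr (Yc R C a b P σ r k) (Yl R C a b P σ r k)) (O R C n0 a b P σ (r + s) k) := by
    refine H_monoS hu ?_ (DetS.of Det.rfl)
    intro o o' p q e
    obtain ⟨e0, e'⟩ := Prod.mk.inj e
    obtain ⟨y1, y2⟩ := Prod.mk.inj e0
    obtain ⟨e1, e2, e3, -⟩ := O_eq.1 e'
    obtain ⟨e4, e5⟩ := hR.nest r o o' (wt_pos p).1 (wt_pos q).1 e1 e2
    exact Prod.ext (O_eq.2 ⟨e1, e4, e3, y1⟩) (Prod.ext e5 y2)
  have a2 : H (wt R C (r + s) k w) (Yc R C a b P σ r k) (O R C n0 a b P σ (r + s) k) ≤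
      stc R C a b P σ r k w r0 := by
    refine (st_leak hu (V := Vp R C a b r k) (ρ := fun o => unit R C r k o * P) hr
      (fun o => mul_pos (unit_pos hR hC r k o) hP0) fun o o' p q e => ?_).trans
      (tot_res_res_mono hw (fun o h => ⟨hR.live r o h.1, h.2⟩) _)
    obtain ⟨e1, e2, e3, -⟩ := O_eq.1 e
    obtain ⟨e4, -⟩ := hR.nest r o o' (wt_pos p).1 (wt_pos q).1 e1 e2
    refine ⟨by simp only [unit_eq hR hC e4 e3], ?_⟩
    have h3 := key o o' p q e (R.t0 r o) 1 (by simpa using hR.near0 r o (wt_pos p).1)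
    unfold Vp
    rw [← hR.dt0 r o o' e4]
    refine h3.trans ?_
    have h4 := unit_pos hR hC r k o
    have h5 : c1 * P + 1 ≤ r0 * P := by
      have := mul_le_mul_of_nonneg_right h2 hP0.le
      rwa [add_mul, one_div, inv_mul_cancel₀ hP0.ne'] at this
    calc (c1 * P + 1) * unit R C r k o ≤ r0 * P * unit R C r k o := by gcongr
      _ = _ := by ring
  have a3 : H (wt R C (r + s) k w) (Yl R C a b P σ r k) (O R C n0 a b P σ (r + s) k) ≤
      stl R C a b P σ r k w r0 := by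
    refine (st_leak hu (V := Vl R C a b r k) (ρ := fun o => unit R C r k o / P) hr
      (fun o => div_pos (unit_pos hR hC r k o) hP0) fun o o' p q e => ?_).trans
      (tot_res_res_mono hw (fun o h => ⟨hR.live r o h.1, h.2⟩) _)
    obtain ⟨e1, e2, e3, -⟩ := O_eq.1 e
    obtain ⟨e4, e5⟩ := hR.nest r o o' (wt_pos p).1 (wt_pos q).1 e1 e2
    refine ⟨by simp only [unit_eq hR hC e4 e3], ?_⟩
    have h3 := key o o' p q e (R.tA r o) c2 (hR.nearA r o (wt_pos p).1)
    unfold Vl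
    rw [← hR.dtA r o o' e5]
    refine h3.trans ?_
    have h4 := unit_pos hR hC r k o
    rw [← mul_div_assoc, le_div_iff₀ hP0]
    calc (c1 * P + c2) * unit R C r k o * P = (c1 * P ^ 2 + c2 * P) * unit R C r k o := by ring
      _ ≤ _ := by gcongr
  exact a1.trans ((Tel.H_pr_le hu _ _ _).trans (add_le_add a2 a3))

/-- chain along the rows -/
theorem chain_row (hw : Nn w) (hR : R.Ok n0 s c1 c2) (hC : C.Ok w n0 a s c1 c2 KB) (hP : 1 ≤ P)
    (hK : 1 ≤ KB) (hr : r0 ≤ 1) (h1 : c1 * P ^ 2 + c2 * P ≤ r0) (h2 : c1 + 1 / P ≤ r0) (k G : ℕ) :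
    ∑ r ∈ range G, d2 R C n0 a b P σ r k w ≤ s * (lg KB * tot w) +
      ∑ r ∈ range G, (stc R C a b P σ r k w r0 + stl R C a b P σ r k w r0) := by
  have h3 := Tel.tel_res hw (C.B k) (fun r => O R C n0 a b P σ r k)
    (fun r => pr (R.A r) (Yl R C a b P σ r k)) (fun r o => R.live r o ∧ C.live k o) s G
    fun r o h => ⟨hR.live r o h.1, h.2⟩
  refine le_trans h3 (add_le_add ?_ (sum_le_sum fun r _ => leak_row hw hR hC hP hr h1 h2 r k))
  have h4 := sum_le_card_nsmul (range s)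
    (fun r => H (res w fun o => R.live r o ∧ C.live k o) (C.B k) (O R C n0 a b P σ r k))
    (lg KB * tot w) fun r _ => by
      refine (H_le_card (hw.res _) hK fun o ho => ?_).trans
        (mul_le_mul_of_nonneg_left (tot_res_le hw _) (lg_nonneg hK))
      obtain ⟨T, hT, hm⟩ := hC.card k o (res_pos ho).1.2
      refine le_trans (Nat.cast_le.2 (card_le_card fun v hv => ?_)) hT
      obtain ⟨p, hp, e, rfl⟩ := mem_vals.1 hv
      obtain ⟨e1, -, e3, -⟩ := O_eq.1 e
      exact hm p (res_pos hp).2 (res_pos hp).1.2 e1 e3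
  simpa using h4

end Pool.Agent.Lib.MP_d308c3_co.Cell
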