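import Pool.Agent.Lib.MP_d308c3_co.Cell.Supp

/-! Cells of the end game: rows (pairs of sibling windows), columns (cells of slopes), heights. -/

namespace Pool.Agent.Lib.MP_d308c3_co.Cell

open Finset Pool.Agent.Lib.MP_108739_an.F
open scoped Classical

/-- row data: `tau` the pair (or single child) with length `lam` and first time `t0`, `ch` the child,
`A` a later window with first time `tA` -/
structure RowD (Ω τ α : Type) where
  live : ℕ → Ω → Prop
  tau : ℕ → Ω → τ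
  lam : ℕ → Ω → ℝ
  t0 : ℕ → Ω → ℝ
  ch : ℕ → Ω → α
  A : ℕ → Ω → α
  tA : ℕ → Ω → ℝ

/-- column data: `xi` the cell of slopes with left end `x0` and length `U`, `B` a smaller cell with
left end `xB` -/
structure ColD (Ω ξ : Type) where
  live : ℕ → Ω → Prop
  xi : ℕ → Ω → ξ
  x0 : ℕ → Ω → ℝ
  U : ℕ → Ω → ℝ
  B : ℕ → Ω → ξ
  xB : ℕ → Ω → ℝ

variable {Ω ν τ α ξ : Type}

/-- facts on the rows; `s` is the step of the chain, `c1` stands for `2^-s`, `c2` for `2^-g0` -/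
structure RowD.Ok (R : RowD Ω τ α) (n0 : Ω → ν) (s : ℕ) (c1 c2 : ℝ) : Prop where
  live : ∀ r o, R.live (r + s) o → R.live r o
  pos : ∀ r o, 0 < R.lam r o
  dlive : ∀ r, Det (R.tau r) (R.live r)
  dlam : ∀ r, Det (R.tau r) (R.lam r)
  dt0 : ∀ r, Det (R.tau r) (R.t0 r)
  dtA : ∀ r, Det (R.A r) (R.tA r)
  mem : ∀ r o, R.live r o → 0 ≤ R.tA r o - R.t0 r o ∧ R.tA r o - R.t0 r o ≤ R.lam r o
  nest : ∀ r o o', R.live (r + s) o → R.live (r + s) o' → n0 o = n0 o' →
    R.tau (r + s) o = R.tau (r + s) o' → R.tau r o = R.tau r o' ∧ R.A r o = R.A r o'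
  small : ∀ r o, R.live (r + s) o → R.lam (r + s) o ≤ c1 * R.lam r o
  nearA : ∀ r o, R.live (r + s) o → |R.tA r o - R.t0 (r + s) o| ≤ c2 * R.lam r o
  near0 : ∀ r o, R.live (r + s) o → |R.t0 r o - R.t0 (r + s) o| ≤ R.lam r o

/-- facts on the columns; `KB` stands for `2^g0` -/
structure ColD.Ok (C : ColD Ω ξ) (w : Ω → ℝ) (n0 : Ω → ν) (a : Ω → ℝ) (s : ℕ)
    (c1 c2 KB : ℝ) : Prop where
  live : ∀ k o, C.live (k + s) o → C.live k o
  pos : ∀ k o, 0 < C.U k o
  dlive : ∀ k, Det (pr n0 (C.xi k)) (C.live k)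
  dU : ∀ k, Det (C.xi k) (C.U k)
  dx0 : ∀ k, Det (C.xi k) (C.x0 k)
  dxB : ∀ k, Det (C.B k) (C.xB k)
  mem : ∀ k o, C.live k o → 0 ≤ a o - C.x0 k o ∧ a o - C.x0 k o ≤ C.U k o
  memB : ∀ k o, C.live k o →
    C.x0 k o ≤ C.xB k o ∧ C.xB k o ≤ a o ∧ a o - C.xB k o ≤ c2 * C.U k o
  nest : ∀ k o o', C.live (k + s) o → C.live (k + s) o' → n0 o = n0 o' →
    C.xi (k + s) o = C.xi (k + s) o' → C.xi k o = C.xi k o' ∧ C.B k o = C.B k o'
  small : ∀ k o, C.live (k + s) o → C.U (k + s) o ≤ c1 * C.U k o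
  card : ∀ k o, C.live k o → ∃ T : Finset ξ, (#T : ℝ) ≤ KB ∧
    ∀ o', 0 < w o' → C.live k o' → n0 o' = n0 o → C.xi k o' = C.xi k o → C.B k o' ∈ T

section
variable (R : RowD Ω τ α) (C : ColD Ω ξ) (n0 : Ω → ν) (a b : Ω → ℝ) (P σ : ℝ) (r k : ℕ)

/-- unit of height of the cell -/
def unit (o : Ω) : ℝ := R.lam r o * C.U k o

/-- height at the first time of the pair -/
def Vp (o : Ω) : ℝ := b o + R.t0 r o * (a o - C.x0 k o)

/-- height at the first time of the later window -/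
def Vl (o : Ω) : ℝ := b o + R.tA r o * (a o - C.x0 k o)

noncomputable def Yc (o : Ω) : ℤ := ⌊Vp R C a b r k o / (unit R C r k o * P) + σ⌋

noncomputable def Yp (o : Ω) : ℤ := ⌊Vp R C a b r k o / (unit R C r k o / P) + σ⌋

noncomputable def Yl (o : Ω) : ℤ := ⌊Vl R C a b r k o / (unit R C r k o / P) + σ⌋

/-- the conditioning of the cell -/
noncomputable def O : Ω → (ν × τ) × ξ × ℤ :=
  pr (pr n0 (R.tau r)) (pr (C.xi k) (Yc R C a b P σ r k))

/-- the fine conditioning of the cell -/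
noncomputable def GG : Ω → ((ν × τ) × ξ × ℤ) × α × ξ :=
  pr (O R C n0 a b P σ r k) (pr (R.A r) (C.B k))

/-- weight of the items with live row and live column -/
noncomputable def wt (w : Ω → ℝ) : Ω → ℝ := res w fun o => R.live r o ∧ C.live k o

variable [Fintype Ω] (w : Ω → ℝ) (r0 : ℝ)

noncomputable def d1 : ℝ :=
  I (wt R C r k w) (R.A r) (pr (C.B k) (Yp R C a b P σ r k)) (O R C n0 a b P σ r k)

noncomputable def d2 : ℝ :=
  I (wt R C r k w) (C.B k) (pr (R.A r) (Yl R C a b P σ r k)) (O R C n0 a b P σ r k)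

/-- masses of the straddling items -/
noncomputable def stc : ℝ :=
  tot (res (wt R C r k w) fun o => Tel.St r0 (Vp R C a b r k o / (unit R C r k o * P) + σ))

noncomputable def stp : ℝ :=
  tot (res (wt R C r k w) fun o => Tel.St r0 (Vp R C a b r k o / (unit R C r k o / P) + σ))

noncomputable def stl : ℝ :=
  tot (res (wt R C r k w) fun o => Tel.St r0 (Vl R C a b r k o / (unit R C r k o / P) + σ))

end

end Pool.Agent.Lib.MP_d308c3_co.Cell
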