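import Pool.Agent.Lib.MP_d308c3_co.Tel

/-! Determination on the support of a weight. -/

namespace Pool.Agent.Lib.MP_d308c3_co.Cell

open Finset Pool.Agent.Lib.MP_108739_an.F
open scoped Classical

variable {Ω α β γ δ : Type} [Fintype Ω] {w : Ω → ℝ}

/-- `g` determines `f` on the support of `w` -/
def DetS (w : Ω → ℝ) (g : Ω → β) (f : Ω → α) : Prop :=
  ∀ o o', 0 < w o → 0 < w o' → g o = g o' → f o = f o'

omit [Fintype Ω] in
theorem DetS.of {g : Ω → β} {f : Ω → α} (h : Det g f) : DetS w g f := fun o o' _ _ e => h o o' e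

omit [Fintype Ω] in
theorem DetS.trans {f : Ω → α} {g : Ω → β} {k : Ω → γ} (h1 : DetS w f g) (h2 : DetS w g k) :
    DetS w f k := fun o o' a b e => h2 o o' a b (h1 o o' a b e)

omit [Fintype Ω] in
theorem DetS.pr {f : Ω → α} {g : Ω → β} {k : Ω → γ} (h1 : DetS w k f) (h2 : DetS w k g) :
    DetS w k (pr f g) := fun o o' a b e => Prod.ext (h1 o o' a b e) (h2 o o' a b e)

theorem DetS.res {f : Ω → α} {g : Ω → β} (h : DetS w g f) (A : Ω → Prop) : DetS (res w A) g f :=
  fun o o' a b e => h o o' (res_pos a).2 (res_pos b).2 e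

theorem ms_monoS (hw : Nn w) {f : Ω → α} {g : Ω → β} (h : DetS w g f) {o : Ω} (ho : 0 < w o) :
    ms w g o ≤ ms w f o := tot_res_mono hw fun o' p e => h o' o p ho e

theorem ms_congrS (hw : Nn w) {f : Ω → α} {g : Ω → β} (h : DetS w g f) (h' : DetS w f g) {o : Ω}
    (ho : 0 < w o) : ms w g o = ms w f o := le_antisymm (ms_monoS hw h ho) (ms_monoS hw h' ho)

theorem H_congrS (hw : Nn w) {f : Ω → α} {f' : Ω → β} {g : Ω → γ} {g' : Ω → δ}
    (h1 : DetS w (pr f g) (pr f' g')) (h2 : DetS w (pr f' g') (pr f g)) (h3 : DetS w g g')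
    (h4 : DetS w g' g) : H w f g = H w f' g' :=
  E_congr hw fun o ho => by rw [ms_congrS hw h3 h4 ho, ms_congrS hw h1 h2 ho]

/-- forget the values off the support -/
noncomputable def opt (w : Ω → ℝ) (f : Ω → α) : Ω → Option α := fun o => if 0 < w o then some (f o) else none

omit [Fintype Ω] in
theorem opt_det {f : Ω → α} {g : Ω → β} (h : DetS w g f) : Det (opt w g) (opt w f) := by
  intro o o' e
  unfold opt at e ⊢
  by_cases a : 0 < w o <;> by_cases b : 0 < w o' <;> simp only [a, b, if_true, if_false] at e ⊢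
  · rw [h o o' a b (Option.some.inj e)]
  · exact absurd e (by simp)
  · exact absurd e (by simp)

omit [Fintype Ω] in
theorem opt_l (f : Ω → α) : DetS w (opt w f) f := by
  intro o o' a b e
  simpa [opt, a, b] using e

omit [Fintype Ω] in
theorem opt_r (f : Ω → α) : DetS w f (opt w f) := by
  intro o o' a b e
  simp [opt, a, b, e]

theorem H_opt (hw : Nn w) (f : Ω → α) (g : Ω → β) : H w f (opt w g) = H w f g :=
  H_congrS hw ((DetS.of Det.fst).pr ((DetS.of Det.snd).trans (opt_l g)))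
    ((DetS.of Det.fst).pr ((DetS.of Det.snd).trans (opt_r g))) (opt_l g) (opt_r g)

theorem H_monoS (hw : Nn w) {f : Ω → α} {f' : Ω → β} {g : Ω → γ} {g' : Ω → δ}
    (h1 : DetS w (pr f' g) f) (h2 : DetS w g g') : H w f g ≤ H w f' g' := by
  have a : H w f g ≤ H w f' g := E_mono hw fun o ho =>
    lg_mono (div_pos (ms_pos hw _ ho) (ms_pos hw _ ho))
      (div_le_div_of_nonneg_left (ms_nonneg hw _ o) (ms_pos hw _ ho)
        (ms_monoS hw (h1.pr (DetS.of Det.snd)) ho))
  refine a.trans ?_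
  rw [← H_opt hw f' g, ← H_opt hw f' g']
  exact H_mono hw Det.fst (opt_det h2)

theorem I_monoS (hw : Nn w) {α' β' : Type} {f : Ω → α} {f' : Ω → α'} {g : Ω → β} {g' : Ω → β'}
    {k : Ω → γ} (h1 : DetS w (pr f' k) f) (h2 : DetS w (pr g' k) g) : I w f g k ≤ I w f' g' k := by
  have a : ∀ {α β β' : Type} (f : Ω → α) (g : Ω → β) (g' : Ω → β'), DetS w (pr g' k) g →
      I w f g k ≤ I w f g' k := fun f g g' h =>
    sub_le_sub_left (H_monoS hw (DetS.of Det.fst) (h.pr (DetS.of Det.snd))) _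
  refine (a f g g' h2).trans ?_
  rw [I_symm hw f g', I_symm hw f' g']
  exact a g' f f' h1

theorem floor_conf {V V' ρ σ : ℝ} (hρ : 0 < ρ) (h : ⌊V / ρ + σ⌋ = ⌊V' / ρ + σ⌋) : |V - V'| ≤ ρ := by
  have h1 := Int.abs_sub_lt_one_of_floor_eq_floor h
  rw [add_sub_add_right_eq_sub, ← sub_div, abs_div, abs_of_pos hρ, div_lt_one hρ] at h1
  exact h1.le

theorem div_near {V V' ρ σ r : ℝ} (hρ : 0 < ρ) (h : |V - V'| ≤ r * ρ) :
    |V / ρ + σ - (V' / ρ + σ)| ≤ r := by
  rwa [add_sub_add_right_eq_sub, ← sub_div, abs_div, abs_of_pos hρ, div_le_iff₀ hρ]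

end Pool.Agent.Lib.MP_d308c3_co.Cell
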